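import Pool.Agent.Helper82.RD.Defs

/-!
# Project RD, module NAR: division with a conclusion of small support
-/

set_option autoImplicit false

open Finset MP86d903

namespace Pool.Agent.Helper82.RD

variable {ι V : Type} [DecidableEq ι] [Fintype ι] [Fintype V] [DecidableEq V]
  {vs ng : ι → Finset V} {q : ℕ}

theorem mNAR {T₀ T₁ : Finset V} {ρ₀ : V → Bool} {w τ r M : ℕ}
    {Λ : Submodule (ZMod 2) (V → ZMod 2)} (hT : T₀ ⊆ T₁) (hΛ : Module.finrank (ZMod 2) Λ ≤ r)
    (hI : ∀ T : Finset V, T.card ≤ M → (inside vs (Cl vs q T)).card ≤ q)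
    (hM : T₁.card + 2 * w + 2 * (τ * r) + 2 * (r * r) + 4 * r ≤ M)
    (hNXT : ∀ (G : Finset V) (P : Submodule (ZMod 2) (V → ZMod 2)), T₁ ⊆ G → P ≤ Λ →
      P ≤ PM vs (Cl vs q G) →
      ∃ (E J : Finset V) (P' : Submodule (ZMod 2) (V → ZMod 2)), NX vs q τ r G Λ P E J P')
    (hEXT : ∀ (Z B : Finset V) (ρ : V → Bool), SPa vs q Z → SPb vs Z → (inside vs B).card ≤ q →
      Valid vs ng ρ Z →
      ∃ σ : V → Bool, (∀ i ∈ Z, σ i = ρ i) ∧ Valid vs ng σ B ∧ Valid vs ng (flip Z σ) B)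
    {a a' : V → ℤ} {b b' : ℤ} {c : ℕ} (hc : 1 ≤ c) (ha : ∀ i, a i = c * a' i)
    (hb : b' = ⌈(b : ℚ) / c⌉) (hsupp : (univ.filter (fun i => a' i ≠ 0)).card ≤ w)
    (hH : Hd vs ng q T₀ T₁ ρ₀ w τ r Λ a b) : Hd vs ng q T₀ T₁ ρ₀ w τ r Λ a' b' := by
  rintro Z ρ ⟨T, J, P, hZ, hJ, hPΛ, -, hTc, hSPa, hSPb, hval, hρ₀, -⟩
  obtain ⟨W, hW⟩ : ∃ W, W = univ.filter (fun i => a' i ≠ 0) := ⟨_, rfl⟩
  rw [← hW] at hsupp
  obtain ⟨E, J', P', hN⟩ := hNXT (T₁ ∪ W) ⊥ subset_union_left bot_le bot_le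
  have hcrd : E.card ≤ τ * Module.finrank (ZMod 2) P' := by
    have h1 := hN.crd
    rw [finrank_bot, mul_zero, add_zero] at h1
    exact h1
  have hP'r : Module.finrank (ZMod 2) P' ≤ r := (Submodule.finrank_mono hN.le').trans hΛ
  have hPr : Module.finrank (ZMod 2) P ≤ r := (Submodule.finrank_mono hPΛ).trans hΛ
  have hass : T₁ ∪ W ∪ E = T₁ ∪ (W ∪ E) := union_assoc _ _ _
  obtain ⟨Z', hZ'⟩ : ∃ Z', Z' = Cl vs q (T₁ ∪ (W ∪ E)) ∪ J' := ⟨_, rfl⟩
  have hspa := hN.spa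
  have hspb := hN.spb
  have hevn := hN.evn
  have hpm := hN.pm
  rw [hass] at hspa hspb hevn hpm
  rw [← hZ'] at hspa hspb hevn
  obtain ⟨U, hU⟩ : ∃ U, U = T₁ ∪ T ∪ J ∪ W ∪ E ∪ J' := ⟨_, rfl⟩
  have hT1U : T₁ ⊆ U := by
    rw [hU]
    intro x hx
    simp only [mem_union]
    tauto
  have hTU : T₁ ∪ T ⊆ U := by
    rw [hU]
    intro x hx
    simp only [mem_union] at hx ⊢
    tauto
  have hJU : J ⊆ U := by
    rw [hU]
    intro x hx
    simp only [mem_union]
    tauto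
  have hWEU : T₁ ∪ (W ∪ E) ⊆ U := by
    rw [hU]
    intro x hx
    simp only [mem_union] at hx ⊢
    tauto
  have hJ'U : J' ⊆ U := by
    rw [hU]
    intro x hx
    simp only [mem_union]
    tauto
  obtain ⟨B, hB⟩ : ∃ B, B = Cl vs q U := ⟨_, rfl⟩
  have hZB : Z ⊆ B := by
    rw [hZ, hB]
    exact union_subset (Cl_mono hTU) (hJU.trans (subset_Cl q _))
  have hZ'B : Z' ⊆ B := by
    rw [hZ', hB]
    exact union_subset (Cl_mono hWEU) (hJ'U.trans (subset_Cl q _))
  have hUc : U.card ≤ M := by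
    have e1 : U.card ≤ T₁.card + T.card + J.card + W.card + E.card + J'.card := by
      rw [hU]
      refine (card_union_le _ _).trans (Nat.add_le_add_right ?_ _)
      refine (card_union_le _ _).trans (Nat.add_le_add_right ?_ _)
      refine (card_union_le _ _).trans (Nat.add_le_add_right ?_ _)
      refine (card_union_le _ _).trans (Nat.add_le_add_right ?_ _)
      exact card_union_le _ _
    have e2 : τ * Module.finrank (ZMod 2) P ≤ τ * r := Nat.mul_le_mul_left _ hPr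
    have e3 : 2 * r * Module.finrank (ZMod 2) Λ ≤ 2 * (r * r) := by
      rw [mul_assoc]
      exact Nat.mul_le_mul_left _ (Nat.mul_le_mul_left _ hΛ)
    have e4 : τ * Module.finrank (ZMod 2) P' ≤ τ * r := Nat.mul_le_mul_left _ hP'r
    have e5 := hN.jc
    omega
  have hBq : (inside vs B).card ≤ q := by
    rw [hB]
    exact hI U hUc
  obtain ⟨σ, hσZ, hv1, hv2⟩ := hEXT Z B ρ hSPa hSPb hBq hval
  have h0Z : Cl vs q T₀ ⊆ Z := by
    rw [hZ]
    exact (Cl_mono (hT.trans subset_union_left)).trans subset_union_left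
  have hWZ' : W ⊆ Z' := by
    rw [hZ']
    refine Subset.trans ?_ (subset_union_left (s₂ := J'))
    refine Subset.trans ?_ (subset_Cl q _)
    intro x hx
    simp only [mem_union]
    tauto
  have key : ∀ κ : V → Bool, Valid vs ng κ B → (∀ i ∈ Z, κ i = ρ i) →
      2 * b' ≤ ∑ i, a' i * pt Z' κ i := by
    intro κ hκ hκZ
    have hFm : Fm vs ng q T₀ T₁ ρ₀ w τ r Λ Z' κ := by
      refine ⟨W ∪ E, J', P', hZ', hN.jc, hN.le', hpm, ?_, hspa, hspb,
        fun c hc => hκ c (hc.trans hZ'B), fun i hi => ?_, hevn⟩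
      · have e1 := card_union_le W E
        omega
      · rw [hκZ i (h0Z hi)]
        exact hρ₀ i hi
    have h1 := hH Z' κ hFm
    have h2 : ∀ i, a i * pt Z' κ i = 2 * ((c : ℤ) * (a' i * if κ i then 1 else 0)) := by
      intro i
      rw [ha i]
      by_cases hi : a' i = 0
      · simp [hi]
      · have : i ∈ Z' := hWZ' (by rw [hW]; exact mem_filter.mpr ⟨mem_univ _, hi⟩)
        simp only [pt, if_pos this]
        cases κ i <;> simp
        ring
    have h2' : ∀ i, a' i * pt Z' κ i = 2 * (a' i * if κ i then 1 else 0) := by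
      intro i
      by_cases hi : a' i = 0
      · simp [hi]
      · have : i ∈ Z' := hWZ' (by rw [hW]; exact mem_filter.mpr ⟨mem_univ _, hi⟩)
        simp only [pt, if_pos this]
        cases κ i <;> simp
        ring
    rw [sum_congr rfl (fun i _ => h2 i), ← mul_sum, ← mul_sum] at h1
    rw [sum_congr rfl (fun i _ => h2' i), ← mul_sum]
    obtain ⟨s, hs⟩ : ∃ s : ℤ, s = ∑ i, (a' i * if κ i then 1 else 0 : ℤ) := ⟨_, rfl⟩
    rw [← hs] at h1 ⊢
    have h4 : b ≤ c * s := by omega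
    have h5 : b' ≤ s := by
      rw [hb, Int.ceil_le, div_le_iff₀ (by exact_mod_cast hc)]
      have : (b : ℚ) ≤ ((c * s : ℤ) : ℚ) := by exact_mod_cast h4
      rw [Int.cast_mul] at this
      push_cast at this
      linarith
    omega
  have k1 := key σ hv1 hσZ
  have k2 := key (flip Z σ) hv2 (by
    intro i hi
    unfold MP86d903.flip
    rw [if_pos hi]
    exact hσZ i hi)
  have hsum : ∑ i, a' i * pt Z' σ i + ∑ i, a' i * pt Z' (flip Z σ) i =
      2 * ∑ i, a' i * pt Z ρ i := by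
    rw [← sum_add_distrib, mul_sum]
    refine sum_congr rfl (fun i _ => ?_)
    by_cases hi : a' i = 0
    · simp [hi]
    · have hiZ' : i ∈ Z' := hWZ' (by rw [hW]; exact mem_filter.mpr ⟨mem_univ _, hi⟩)
      have h1 : pt Z' σ i + pt Z' (flip Z σ) i = 2 * pt Z ρ i := by
        unfold pt MP86d903.flip
        by_cases hiZ : i ∈ Z
        · rw [if_pos hiZ', if_pos hiZ', if_pos hiZ, if_pos hiZ, hσZ i hiZ]
          ring
        · rw [if_pos hiZ', if_pos hiZ', if_neg hiZ, if_neg hiZ]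
          cases σ i <;> simp
      rw [← mul_add, h1]
      ring
  omega

end Pool.Agent.Helper82.RD
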